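import Pool.Agent.Helper69.SW.St

/-! Project SW (MP_65faa7), module Zt: the comparison function. -/

set_option autoImplicit false

open scoped BigOperators ENNReal Topology
open Pool.LE Pool.NL Pool.CL Pool.CB Filter

namespace Pool.SW

namespace ZtM

variable {d : ℕ}

/-- rescaled centred coordinate -/
noncomputable def zz (n : ℕ) (x : Zd d) (i : Fin d) : ℝ := (x i : ℝ) / n - 1 / 2

/-- `1 + |z|²` -/
noncomputable def SS (n : ℕ) (x : Zd d) : ℝ := 1 + ∑ i, zz n x i ^ 2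

lemma zt_eq (n : ℕ) (x : Zd d) : zt n x = (SS n x ^ 2)⁻¹ := rfl

lemma one_le_SS (n : ℕ) (x : Zd d) : 1 ≤ SS n x := by
  unfold SS
  have : 0 ≤ ∑ i, zz n x i ^ 2 := Finset.sum_nonneg fun _ _ => sq_nonneg _
  linarith

lemma zz_sq_le (n : ℕ) (x : Zd d) (i : Fin d) : 1 + zz n x i ^ 2 ≤ SS n x := by
  unfold SS
  have := Finset.single_le_sum (f := fun j => zz n x j ^ 2) (fun _ _ => sq_nonneg _)
    (Finset.mem_univ i)
  linarith

lemma single_inj {i j : Fin d} (h : (Pi.single i (1 : ℤ) : Zd d) = Pi.single j 1) : i = j := by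
  by_contra hne
  have h2 := congrFun h i
  rw [Pi.single_eq_same, Pi.single_eq_of_ne hne] at h2
  norm_num at h2

lemma sum_nb (b : Zd d) (G : Zd d → ℝ) :
    ∑ x ∈ nb b, G x = ∑ i : Fin d, (G (b + Pi.single i 1) + G (b - Pi.single i 1)) := by
  unfold nb
  rw [Finset.sum_union, Finset.sum_image, Finset.sum_image, ← Finset.sum_add_distrib]
  · intro i _ j _ h
    exact single_inj (sub_right_injective h)
  · intro i _ j _ h
    exact single_inj (add_right_injective b h)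
  · rw [Finset.disjoint_left]
    intro y h1 h2
    rw [Finset.mem_image] at h1 h2
    obtain ⟨i, -, h1⟩ := h1
    obtain ⟨j, -, h2⟩ := h2
    have h3 : (Pi.single i (1 : ℤ) : Zd d) = -Pi.single j 1 := by
      rw [← h2, sub_eq_add_neg] at h1
      exact add_right_injective b h1
    have h4 := congrFun h3 i
    rw [Pi.neg_apply, Pi.single_eq_same] at h4
    by_cases hij : i = j
    · rw [hij, Pi.single_eq_same] at h4
      omega
    · rw [Pi.single_eq_of_ne hij] at h4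
      omega

lemma SS_single (n : ℕ) (x : Zd d) (i : Fin d) (a : ℤ) :
    SS n (x + Pi.single i a) = SS n x + 2 * ((a : ℝ) / n) * zz n x i + ((a : ℝ) / n) ^ 2 := by
  have h1 : ∑ j, (zz n (x + Pi.single i a) j ^ 2 - zz n x j ^ 2) =
      zz n (x + Pi.single i a) i ^ 2 - zz n x i ^ 2 := by
    refine Finset.sum_eq_single i (fun j _ hj => ?_) (fun h => absurd (Finset.mem_univ i) h)
    unfold zz
    rw [Pi.add_apply, Pi.single_eq_of_ne hj]
    simp
  rw [Finset.sum_sub_distrib] at h1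
  have h2 : zz n (x + Pi.single i a) i = zz n x i + (a : ℝ) / n := by
    unfold zz
    rw [Pi.add_apply, Pi.single_eq_same]
    push_cast
    ring
  rw [h2] at h1
  unfold SS
  nlinarith [h1]

lemma one_side {u : ℝ} (hu : |u| ≤ 1 / 2) :
    ((1 + u) ^ 2)⁻¹ ≤ 1 - 2 * u + 3 * u ^ 2 + 16 * |u| ^ 3 := by
  have h0 := abs_le.1 hu
  have h1 : 0 < (1 + u) ^ 2 := by nlinarith
  have h2 : (1 : ℝ) / 4 ≤ (1 + u) ^ 2 := by nlinarith
  have h3 : 0 ≤ |u| ^ 3 := by positivity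
  have h4 : -(u ^ 3) ≤ |u| ^ 3 := by
    rw [← abs_pow]
    exact neg_le_abs _
  rw [inv_le_iff_one_le_mul₀ h1]
  have h5 : 1 / 4 * (16 * |u| ^ 3) ≤ (1 + u) ^ 2 * (16 * |u| ^ 3) :=
    mul_le_mul_of_nonneg_right h2 (by linarith)
  have h6 : 0 ≤ u ^ 4 := by positivity
  nlinarith

lemma side {S v : ℝ} (hS : 0 < S) (hv : |v / S| ≤ 1 / 2) :
    ((S + v) ^ 2)⁻¹ ≤ (S ^ 2)⁻¹ * (1 - 2 * (v / S) + 3 * (v / S) ^ 2 + 16 * |v / S| ^ 3) := by
  have h1 : S + v = S * (1 + v / S) := by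
    field_simp
  rw [h1, mul_pow, mul_inv]
  exact mul_le_mul_of_nonneg_left (one_side hv) (by positivity)

lemma pair {S h z : ℝ} (hz : 1 + z ^ 2 ≤ S) (h0 : 0 < h) (h4 : h ≤ 1 / 4) :
    ((S + 2 * h * z + h ^ 2) ^ 2)⁻¹ + ((S + 2 * (-h) * z + h ^ 2) ^ 2)⁻¹ ≤
      (S ^ 2)⁻¹ * (2 - 4 * h ^ 2 / S + (6 + 64 * h) * (4 * h ^ 2 * z ^ 2 + h ^ 4) / S ^ 2) := by
  have hS1 : 1 ≤ S := by nlinarith [sq_nonneg z]
  have hS : 0 < S := by linarith
  have hb : ∀ e : ℝ, |e| = h → |(2 * e * z + h ^ 2) / S| ≤ 2 * h := by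
    intro e he
    rw [abs_div, abs_of_pos hS, div_le_iff₀ hS]
    have h1 : |2 * e * z| ≤ h * S := by
      rw [abs_mul, abs_mul, he, abs_of_pos (by norm_num : (0 : ℝ) < 2)]
      have h2 : 2 * |z| ≤ S := by nlinarith [sq_abs z, sq_nonneg (|z| - 1)]
      nlinarith
    calc |2 * e * z + h ^ 2| ≤ |2 * e * z| + |h ^ 2| := abs_add_le _ _
      _ ≤ h * S + h ^ 2 := add_le_add h1 (le_of_eq (abs_of_nonneg (by positivity)))
      _ ≤ 2 * h * S := by nlinarith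
  have c3 : ∀ u : ℝ, |u| ≤ 2 * h → |u| ^ 3 ≤ 2 * h * u ^ 2 := by
    intro u hu
    have : |u| ^ 3 = |u| * u ^ 2 := by
      rw [← sq_abs u]
      ring
    rw [this]
    exact mul_le_mul_of_nonneg_right hu (sq_nonneg u)
  have hp := hb h (abs_of_pos h0)
  have hm := hb (-h) (by rw [abs_neg, abs_of_pos h0])
  have s1 := side hS (hp.trans (by linarith))
  have s2 := side hS (hm.trans (by linarith))
  rw [← add_assoc] at s1 s2
  have k1 := c3 _ hp
  have k2 := c3 _ hm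
  have hi : 0 < (S ^ 2)⁻¹ := by positivity
  refine (add_le_add s1 s2).trans ?_
  rw [← mul_add]
  refine mul_le_mul_of_nonneg_left ?_ hi.le
  have e1 : (2 - 4 * h ^ 2 / S + (6 + 64 * h) * (4 * h ^ 2 * z ^ 2 + h ^ 4) / S ^ 2) =
      (1 - 2 * ((2 * h * z + h ^ 2) / S) + 3 * ((2 * h * z + h ^ 2) / S) ^ 2 +
        16 * (2 * h * ((2 * h * z + h ^ 2) / S) ^ 2)) +
      (1 - 2 * ((2 * (-h) * z + h ^ 2) / S) + 3 * ((2 * (-h) * z + h ^ 2) / S) ^ 2 +
        16 * (2 * h * ((2 * (-h) * z + h ^ 2) / S) ^ 2)) := by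
    field_simp
    ring
  rw [e1]
  linarith

lemma dq_le_iff (n : ℕ) (x : Zd d) (k : ℕ) :
    dq n x ≤ k ↔ ∀ i, -(k : ℤ) ≤ x i ∧ x i ≤ (n : ℤ) - 1 + k := by
  unfold dq
  rw [Finset.sup_le_iff]
  constructor
  · intro h i
    have h1 := h i (Finset.mem_univ i)
    have h2 : max (-x i) (x i - ((n : ℤ) - 1)) ≤ (k : ℤ) := Int.toNat_le.1 h1
    have h3 := (le_max_left (-x i) (x i - ((n : ℤ) - 1))).trans h2
    have h4 := (le_max_right (-x i) (x i - ((n : ℤ) - 1))).trans h2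
    constructor
    · linarith
    · linarith
  · intro h i _
    have h1 := h i
    refine Int.toNat_le.2 (max_le ?_ ?_)
    · linarith [h1.1]
    · linarith [h1.2]

lemma SS_le (n : ℕ) (hn : 1 ≤ n) (x : Zd d) : SS n x ≤ (1 + d) * rr n x ^ 2 := by
  have hn0 : (0 : ℝ) < n := by exact_mod_cast hn
  have h1 := (dq_le_iff n x (dq n x)).1 le_rfl
  have hr : 1 ≤ rr n x := by
    unfold rr
    have : 0 ≤ (dq n x : ℝ) / n := by positivity
    linarith
  have h2 : ∀ i, zz n x i ^ 2 ≤ rr n x ^ 2 := by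
    intro i
    have h3 := h1 i
    have h4 : -(dq n x : ℝ) ≤ (x i : ℝ) := by exact_mod_cast h3.1
    have h5 : (x i : ℝ) ≤ (n : ℝ) - 1 + dq n x := by exact_mod_cast h3.2
    refine sq_le_sq' ?_ ?_
    · unfold zz rr
      have : -((dq n x : ℝ) / n) ≤ (x i : ℝ) / n := by
        rw [← neg_div]
        exact div_le_div_of_nonneg_right h4 hn0.le
      linarith
    · unfold zz rr
      have : (x i : ℝ) / n ≤ 1 + (dq n x : ℝ) / n := by
        rw [div_le_iff₀ hn0, add_mul, div_mul_cancel₀ _ hn0.ne']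
        linarith
      linarith
  unfold SS
  have h3 : ∑ i, zz n x i ^ 2 ≤ ∑ _i : Fin d, rr n x ^ 2 := Finset.sum_le_sum fun i _ => h2 i
  rw [Finset.sum_const, Finset.card_univ, Fintype.card_fin, nsmul_eq_mul] at h3
  nlinarith

lemma rr_le (n : ℕ) (hn : 2 ≤ n) (hd : 1 ≤ d) (x : Zd d) : rr n x ^ 2 ≤ 2 * SS n x := by
  have hn0 : (0 : ℝ) < n := by exact_mod_cast (by omega : 0 < n)
  have hn2 : (2 : ℝ) ≤ n := by exact_mod_cast hn
  have : Nonempty (Fin d) := ⟨⟨0, by omega⟩⟩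
  obtain ⟨i, -, hi⟩ := Finset.exists_mem_eq_sup (Finset.univ : Finset (Fin d))
    Finset.univ_nonempty (fun i => (max (-x i) (x i - ((n : ℤ) - 1))).toNat)
  have h1 : dq n x = (max (-x i) (x i - ((n : ℤ) - 1))).toNat := hi
  have h2 : (dq n x : ℝ) ≤ n * |zz n x i| := by
    have h3 : ((dq n x : ℕ) : ℤ) = max (max (-x i) (x i - ((n : ℤ) - 1))) 0 := by
      rw [h1, Int.toNat_eq_max]
    have h4 : (dq n x : ℝ) = max (max (-(x i : ℝ)) ((x i : ℝ) - ((n : ℝ) - 1))) 0 := by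
      have := congrArg (fun k : ℤ => (k : ℝ)) h3
      push_cast at this
      exact this
    rw [h4]
    have h5 : (x i : ℝ) = n * zz n x i + n / 2 := by
      unfold zz
      field_simp
      ring
    have h6 := abs_le.1 (le_refl |zz n x i|)
    refine max_le (max_le ?_ ?_) (by positivity)
    · rw [h5]
      nlinarith
    · rw [h5]
      nlinarith
  have h3 : (dq n x : ℝ) / n ≤ |zz n x i| := by
    rw [div_le_iff₀ hn0]
    linarith
  have h4 : 0 ≤ (dq n x : ℝ) / n := by positivity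
  have h5 := zz_sq_le n x i
  unfold rr
  have h6 : ((dq n x : ℝ) / n) ^ 2 ≤ zz n x i ^ 2 := by
    rw [← sq_abs (zz n x i)]
    exact pow_le_pow_left₀ h4 h3 2
  nlinarith [sq_nonneg (1 - (dq n x : ℝ) / n)]

lemma AL_zt (n : ℕ) (hd : 21 ≤ d) (hn : 64 * d ≤ n) (x : Zd d) :
    1 / (n : ℝ) ^ 2 * ((SS n x)⁻¹ * zt n x) ≤ AL (zt n) x := by
  have hd0 : (21 : ℝ) ≤ d := by exact_mod_cast hd
  have hnd : 64 * (d : ℝ) ≤ n := by exact_mod_cast hn
  have hn0 : (0 : ℝ) < n := by linarith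
  set h : ℝ := 1 / n with hh
  have h0 : 0 < h := by positivity
  have h1 : 64 * d * h ≤ 1 := by
    rw [hh, mul_one_div, div_le_one hn0]
    exact hnd
  have h4 : h ≤ 1 / 4 := by nlinarith
  set S := SS n x with hS
  have hS1 : 1 ≤ S := one_le_SS n x
  have hS0 : 0 < S := by linarith
  have hb : ∀ i : Fin d, zt n (x + Pi.single i 1) + zt n (x - Pi.single i 1) ≤
      (S ^ 2)⁻¹ * (2 - 4 * h ^ 2 / S +
        (6 + 64 * h) * (4 * h ^ 2 * zz n x i ^ 2 + h ^ 4) / S ^ 2) := by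
    intro i
    have e1 : x - Pi.single i (1 : ℤ) = x + Pi.single i (-1 : ℤ) := by
      rw [Pi.single_neg, sub_eq_add_neg]
    rw [e1, zt_eq, zt_eq, SS_single, SS_single]
    have e2 : ((1 : ℤ) : ℝ) / n = h := by rw [hh]; norm_num
    have e3 : ((-1 : ℤ) : ℝ) / n = -h := by rw [hh]; push_cast; ring
    rw [e2, e3, neg_sq]
    exact pair (zz_sq_le n x i) h0 h4
  have hsum : ∑ b ∈ nb x, zt n b ≤ (S ^ 2)⁻¹ * (2 * d - 4 * d * h ^ 2 / S +
      (6 + 64 * h) * (4 * h ^ 2 * (∑ i, zz n x i ^ 2) + d * h ^ 4) / S ^ 2) := by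
    rw [sum_nb]
    refine (Finset.sum_le_sum fun i _ => hb i).trans (le_of_eq ?_)
    rw [← Finset.mul_sum]
    congr 1
    rw [Finset.sum_add_distrib, Finset.sum_const, Finset.card_univ, Fintype.card_fin,
      nsmul_eq_mul, ← Finset.sum_div, ← Finset.mul_sum, Finset.sum_add_distrib, Finset.sum_const,
      Finset.card_univ, Fintype.card_fin, nsmul_eq_mul, ← Finset.mul_sum]
    ring
  have hZ : ∑ i, zz n x i ^ 2 ≤ S := by
    rw [hS]
    unfold SS
    linarith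
  have hrem : (6 + 64 * h) * (4 * h ^ 2 * (∑ i, zz n x i ^ 2) + d * h ^ 4) / S ^ 2 ≤
      35 * h ^ 2 / S := by
    rw [div_le_div_iff₀ (by positivity) hS0]
    have a1 : 64 * h ≤ 1 := by nlinarith
    have a2 : (d : ℝ) * h ^ 2 ≤ 1 := by nlinarith
    have a3 : 4 * h ^ 2 * (∑ i, zz n x i ^ 2) + d * h ^ 4 ≤ 5 * h ^ 2 * S := by
      have b1 : 4 * h ^ 2 * (∑ i, zz n x i ^ 2) ≤ 4 * h ^ 2 * S :=
        mul_le_mul_of_nonneg_left hZ (by positivity)
      have b2 : (d : ℝ) * h ^ 4 ≤ h ^ 2 * S := by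
        calc (d : ℝ) * h ^ 4 = (d * h ^ 2) * h ^ 2 := by ring
          _ ≤ 1 * h ^ 2 := mul_le_mul_of_nonneg_right a2 (by positivity)
          _ = h ^ 2 * 1 := by ring
          _ ≤ h ^ 2 * S := mul_le_mul_of_nonneg_left hS1 (by positivity)
      linarith
    have a4 : 0 ≤ 4 * h ^ 2 * (∑ i, zz n x i ^ 2) + d * h ^ 4 := by
      have : 0 ≤ ∑ i, zz n x i ^ 2 := Finset.sum_nonneg fun _ _ => sq_nonneg _
      positivity
    calc (6 + 64 * h) * (4 * h ^ 2 * (∑ i, zz n x i ^ 2) + d * h ^ 4) * S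
        ≤ 7 * (5 * h ^ 2 * S) * S := by
          refine mul_le_mul_of_nonneg_right ?_ hS0.le
          exact mul_le_mul (by linarith) a3 a4 (by norm_num)
      _ = 35 * h ^ 2 * S ^ 2 := by ring
  have hi : 0 < (S ^ 2)⁻¹ := by positivity
  have hfin : ∑ b ∈ nb x, zt n b ≤ (S ^ 2)⁻¹ * (2 * d - 49 * h ^ 2 / S) := by
    refine hsum.trans (mul_le_mul_of_nonneg_left ?_ hi.le)
    have c1 : 84 * h ^ 2 / S ≤ 4 * d * h ^ 2 / S := by
      refine div_le_div_of_nonneg_right ?_ hS0.le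
      exact mul_le_mul_of_nonneg_right (by linarith) (by positivity)
    have c2 : 84 * h ^ 2 / S = 49 * h ^ 2 / S + 35 * h ^ 2 / S := by ring
    linarith
  have hz : zt n x = (S ^ 2)⁻¹ := zt_eq n x
  unfold AL
  rw [hz]
  have e5 : 1 / (n : ℝ) ^ 2 = h ^ 2 := by rw [hh]; ring
  rw [e5]
  have c3 : h ^ 2 * (S⁻¹ * (S ^ 2)⁻¹) ≤ (S ^ 2)⁻¹ * (49 * h ^ 2 / S) := by
    have : (S ^ 2)⁻¹ * (49 * h ^ 2 / S) = 49 * (h ^ 2 * (S⁻¹ * (S ^ 2)⁻¹)) := by
      rw [div_eq_mul_inv]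
      ring
    rw [this]
    have : 0 ≤ h ^ 2 * (S⁻¹ * (S ^ 2)⁻¹) := by positivity
    linarith
  have c4 : (S ^ 2)⁻¹ * (2 * d - 49 * h ^ 2 / S) =
      2 * d * (S ^ 2)⁻¹ - (S ^ 2)⁻¹ * (49 * h ^ 2 / S) := by ring
  linarith

end ZtM

open ZtM in
theorem hZt (_hRR : StRR) (_hBox : StBox) : Stzt := by
  intro d hd
  have hd0 : (21 : ℝ) ≤ d := by exact_mod_cast hd
  refine ⟨1 / (1 + d), (1 + d) ^ 2, by positivity, by nlinarith, 64 * d, by omega, ?_⟩
  intro n hn x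
  have hn2 : 2 ≤ n := by omega
  have hn0 : (0 : ℝ) < n := by exact_mod_cast (by omega : 0 < n)
  have hS1 := one_le_SS n x
  have hS0 : 0 < SS n x := by linarith
  have hr1 : 1 ≤ rr n x := by
    unfold rr
    have : 0 ≤ (dq n x : ℝ) / n := by positivity
    linarith
  have hr0 : 0 < rr n x := by linarith
  have e4 : rr n x ^ (-(4 : ℝ)) = (rr n x ^ 4)⁻¹ := by
    rw [Real.rpow_neg hr0.le]
    congr 1
    exact_mod_cast Real.rpow_natCast (rr n x) 4
  have e2 : rr n x ^ (-(2 : ℝ)) = (rr n x ^ 2)⁻¹ := by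
    rw [Real.rpow_neg hr0.le]
    congr 1
    exact_mod_cast Real.rpow_natCast (rr n x) 2
  have hA := SS_le n (by omega) x
  have hB := rr_le n hn2 (by omega) x
  rw [e4, e2, zt_eq]
  refine ⟨by positivity, ?_, ?_, ?_, ?_⟩
  · exact inv_le_one_of_one_le₀ (one_le_pow₀ hS1)
  · rw [← div_eq_mul_inv, le_div_iff₀ (by positivity), inv_mul_le_iff₀ (by positivity)]
    have h1 : rr n x ^ 4 ≤ 4 * SS n x ^ 2 := by
      calc rr n x ^ 4 = (rr n x ^ 2) ^ 2 := by ring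
        _ ≤ (2 * SS n x) ^ 2 := pow_le_pow_left₀ (by positivity) hB 2
        _ = 4 * SS n x ^ 2 := by ring
    have h2 : (4 : ℝ) ≤ (1 + d) ^ 2 := by nlinarith
    have h3 : 4 * SS n x ^ 2 ≤ (1 + d) ^ 2 * SS n x ^ 2 :=
      mul_le_mul_of_nonneg_right h2 (by positivity)
    linarith
  · rw [← div_eq_mul_inv, le_div_iff₀ (by positivity), inv_mul_le_iff₀ (by positivity)]
    calc SS n x ^ 2 ≤ ((1 + d) * rr n x ^ 2) ^ 2 := pow_le_pow_left₀ hS0.le hA 2
      _ = rr n x ^ 4 * (1 + d) ^ 2 := by ring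
  · refine le_trans ?_ (AL_zt n hd hn x)
    rw [zt_eq]
    have h1 : (rr n x ^ 2)⁻¹ ≤ (1 + d) * (SS n x)⁻¹ := by
      rw [← div_eq_mul_inv, le_div_iff₀ hS0, inv_mul_le_iff₀ (by positivity)]
      linarith
    calc 1 / (1 + (d : ℝ)) / (n : ℝ) ^ 2 * ((rr n x ^ 2)⁻¹ * (SS n x ^ 2)⁻¹)
        ≤ 1 / (1 + (d : ℝ)) / (n : ℝ) ^ 2 * (((1 + d) * (SS n x)⁻¹) * (SS n x ^ 2)⁻¹) := by
          refine mul_le_mul_of_nonneg_left ?_ (by positivity)
          exact mul_le_mul_of_nonneg_right h1 (by positivity)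
      _ = 1 / (n : ℝ) ^ 2 * ((SS n x)⁻¹ * (SS n x ^ 2)⁻¹) := by
          field_simp

end Pool.SW
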